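import Pool.Agent.W845.HC.Base

set_option autoImplicit false
open scoped Classical
open scoped BigOperators

namespace Pool.Agent.W154.HC

open Pool.Agent.W845.HC

/-- In a finite acyclic graph a vertex of degree at most one is reachable from every vertex. -/
theorem exists_leaf {V : Type} [Fintype V] (F : SimpleGraph V) (hF : F.IsAcyclic) (v : V) :
    ∃ x : V, F.Reachable v x ∧ dg F x ≤ 1 := by
  classical
  let s : Set ℕ := {n | ∃ (x : V) (p : F.Walk v x), p.IsPath ∧ p.length = n}
  have hs : s.Finite := by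
    refine Set.Finite.subset (Set.finite_le_nat (Fintype.card V)) ?_
    rintro n ⟨x, p, hp, hn⟩
    have := hp.length_lt
    simp only [Set.mem_setOf_eq]
    omega
  obtain ⟨m, ⟨⟨x, p, hp, hpm⟩, hmax⟩⟩ := hs.exists_maximal ⟨0, ⟨v, SimpleGraph.Walk.nil, by simp⟩⟩
  refine ⟨x, ⟨p⟩, ?_⟩
  unfold dg
  rw [Finset.card_le_one]
  have key : ∀ w, F.Adj x w → w = p.penultimate := by
    intro w hw
    apply hF.eq_penultimate_of_adj_end hp hw
    by_contra hns
    have hq : (p.concat hw).IsPath := hp.concat hns hw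
    have h1 := hmax (y := (p.concat hw).length) ⟨w, p.concat hw, hq, rfl⟩
    have h2 : (p.concat hw).length = p.length + 1 := by simp
    have h3 := h1 (by omega)
    omega
  intro a ha b hb
  rw [Finset.mem_filter] at ha hb
  rw [key a ha.2, key b hb.2]

theorem ends1 (hfc : S_FC) : ∀ (V : Type) [Fintype V] (F : SimpleGraph V), IsLF F →
    ec F + 2 ≤ Fintype.card V → ∃ x y : V, ¬ F.Reachable x y ∧ dg F x ≤ 1 ∧ dg F y ≤ 1 := by
  intro V _ F hF hec
  have h1 := hfc V F hF.1
  have h2 : 2 ≤ Nat.card F.ConnectedComponent := by omega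
  have h3 : Nontrivial F.ConnectedComponent := by
    rw [← Finite.one_lt_card_iff_nontrivial]
    omega
  obtain ⟨c, c', hcc⟩ := h3.exists_pair_ne
  obtain ⟨u, rfl⟩ := c.exists_rep
  obtain ⟨w, rfl⟩ := c'.exists_rep
  obtain ⟨x, hx, hdx⟩ := exists_leaf F hF.1 u
  obtain ⟨y, hy, hdy⟩ := exists_leaf F hF.1 w
  refine ⟨x, y, ?_, hdx, hdy⟩
  intro hxy
  apply hcc
  exact SimpleGraph.ConnectedComponent.sound ((hx.trans hxy).trans hy.symm)

theorem sum_dg {V : Type} [Fintype V] (F : SimpleGraph V) : ∑ v, dg F v = 2 * ec F := by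
  have h := F.sum_degrees_eq_twice_card_edges
  have h1 : ∀ v, dg F v = F.degree v := by
    intro v
    unfold dg
    rw [← SimpleGraph.card_neighborFinset_eq_degree]
    congr 1
    ext w
    simp
  have h2 : ec F = F.edgeFinset.card := by
    unfold ec
    rw [← SimpleGraph.coe_edgeFinset, Set.ncard_coe_finset]
  rw [h2, ← h]
  exact Finset.sum_congr rfl (fun v _ => h1 v)

theorem ends2 : ∀ (V : Type) [Fintype V] (F : SimpleGraph V), 2 ≤ Fintype.card V → IsLF F →
    ec F = Fintype.card V - 1 → ∃ x y : V, x ≠ y ∧ dg F x ≤ 1 ∧ dg F y ≤ 1 := by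
  intro V _ F hV hF hec
  by_contra hno
  push_neg at hno
  have hs := sum_dg F
  -- at most one vertex has degree at most one
  by_cases hex : ∃ x, dg F x ≤ 1
  · obtain ⟨x, hx⟩ := hex
    have h1 : ∀ y ∈ Finset.univ.erase x, 2 ≤ dg F y := by
      intro y hy
      have := hno x y (Finset.ne_of_mem_erase hy).symm hx
      omega
    have h2 := Finset.sum_le_sum h1
    have h4 : ∀ y, y ≠ x → dg F y = 2 := by
      intro y hy
      have := h1 y (Finset.mem_erase.2 ⟨hy, Finset.mem_univ _⟩)
      have := hF.2 y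
      omega
    have h3 : ∑ v, dg F v = ∑ v ∈ Finset.univ.erase x, dg F v + dg F x :=
      (Finset.sum_erase_add _ _ (Finset.mem_univ x)).symm
    rw [Finset.sum_const, Finset.card_erase_of_mem (Finset.mem_univ _), Finset.card_univ,
      smul_eq_mul] at h2
    have hd0 : dg F x = 0 := by omega
    -- a neighbour structure: x isolated, the others have degree two: contradiction with acyclicity
    obtain ⟨y, hy⟩ : ∃ y, y ≠ x := by
      have : Nontrivial V := Fintype.one_lt_card_iff_nontrivial.1 (by omega)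
      exact exists_ne x
    obtain ⟨z, hz, hdz⟩ := exists_leaf F hF.1 y
    by_cases hzx : z = x
    · subst hzx
      obtain ⟨p⟩ := hz
      have hnn : ¬ p.Nil := fun h => hy h.eq
      have hadj := p.adj_penultimate hnn
      have hmem : p.penultimate ∈ Finset.univ.filter (fun w => F.Adj z w) :=
        Finset.mem_filter.2 ⟨Finset.mem_univ _, hadj.symm⟩
      unfold dg at hd0
      rw [Finset.card_eq_zero] at hd0
      rw [hd0] at hmem
      simp at hmem
    · have := h4 z hzx
      omega
  · push_neg at hex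
    have h2 : ∑ _v : V, 2 ≤ ∑ v, dg F v := Finset.sum_le_sum (fun v _ => hex v)
    rw [Finset.sum_const, Finset.card_univ, smul_eq_mul] at h2
    omega

theorem ends : S_FC → S_ENDS := fun hfc => ⟨ends1 hfc, ends2⟩

theorem dmono : S_LAM → S_DMONO := by
  intro hlam V _ G G' hGG
  unfold dft
  by_cases h' : G'.IsHamiltonian
  · rw [if_pos h']
    exact Nat.zero_le _
  · have h : ¬ G.IsHamiltonian := fun h => h' (h.mono hGG)
    rw [if_neg h', if_neg h]
    have := hlam.2.2.1 V G G' hGG
    omega

end Pool.Agent.W154.HC
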